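import Pool.Agent.H.MP_53e59f_lc.SF.Fin
import Pool.Agent.H.MP_53e59f_lc.ST.Main

/-!
# DFA-SHUFFLE-NEQ for every word u and almost all words v, with certificates

There is a polynomial-time algorithm for the question whether the language of a deterministic automaton is
different from the shuffle of two words `u` and `v`, which tells for every instance if its answer is certified. Certified
answers are always right. The answers are certified for all automata if `u`, `v` have few prefixes of the same joint
content, and therefore, for every word `u` over an alphabet with at least 4 letters, for all but a fraction
`1 / (|u| + m + 1) ^ c` of the words `v` of length `m`.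
-/

namespace Pool.Agent.Results.MP_53e59f_lc.GenericPairs

open Pool.Agent.SF Pool.Agent.SM

/-- The code of an instance determines the instance. -/
theorem encode_injective : Function.Injective Inst.encode := Pool.Agent.SF.encode_injective

/-- **DFA-SHUFFLE-NEQ is in P for every word u and almost all words v, with certificates.**

For every `c` there are functions `f` (the answer) and `g` (the answer is certified) on instances (automaton `M`, words
`u` and `v`) which are computed in polynomial time (in Mathlib's model of Turing machines with stacks, from the code
of the instance as a bit string), such that:

(0) for every instance: if `g` is `true`, then `f` is `true` exactly when the language of `M` is different from the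
shuffle of `u` and `v`;

(1) for every instance with code of length `N`: if for all `i ≤ |u|`, `j ≤ |v|` there
are at most `c * log N` pairs `(i', j')` such that `u[..i'] v[..j']` is a permutation of `u[..i] v[..j]`, then
`g` is `true`;

(2) for all `s ≥ 4`, all `m` and every word `u` over `s` letters: the number of words `v` of length `m` over `s`
letters for which there is an automaton `M` (with any number `q` of states) such that `g` is `false` on
the instance `M`, `u`, `v`, is at most `s ^ m / (|u| + m + 1) ^ c`. -/
theorem result (c : ℕ) :
    ∃ f g : Inst → Bool,
      Nonempty (Turing.TM2ComputableInPolyTime Inst.encode Computability.encodeBool f) ∧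
      Nonempty (Turing.TM2ComputableInPolyTime Inst.encode Computability.encodeBool g) ∧
      (∀ x : Inst, g x = true → (f x = true ↔ x.M.accepts ≠ {w | Sh x.u x.v w})) ∧
      (∀ x : Inst,
        (∀ i j, i ≤ x.u.length → j ≤ x.v.length →
          (Same x.u x.v i j).ncard ≤ c * Nat.log 2 x.encode.length) → g x = true) ∧
      ∀ (s m : ℕ) (u : List (Fin s)), 4 ≤ s →
        {v : List (Fin s) | v.length = m ∧
          ∃ (q : ℕ) (M : DFA (Fin s) (Fin q)), g ⟨s, q, M, u, v⟩ = false}.ncard *
          (u.length + m + 1) ^ c ≤ s ^ m :=
  Pool.Agent.ST.main c

end Pool.Agent.Results.MP_53e59f_lc.GenericPairs
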