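import Pool.Agent.H.MP_53e59f_lc.SR.LP

/-!
# DFA-SHUFFLE-NEQ for words whose common factors up to permutation have a short period

There is a polynomial-time algorithm for the question whether the language of a deterministic automaton is
different from the shuffle of `u` and `v`, which tells for every instance if its answer is certified; certified answers
are right, and the answer is certified if some `P` with `0 < P ≤ c * log N` (`N` = the length of the input) is a period of
all factors `a` of `u` and `b` of `v` which are permutations of each other. This contains the case
that `P` is a period of `u` and of `v`.
-/

namespace Pool.Agent.Results.MP_53e59f_lc.LocalPeriod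

open Pool.Agent.SF Pool.Agent.SH

/-- The code of an instance determines the instance. -/
theorem encode_injective : Function.Injective Inst.encode := Pool.Agent.SF.encode_injective

/-- **DFA-SHUFFLE-NEQ is in P if the common factors up to permutation have a period at most
`c * log N`.**

For every `c` there are functions `f` (the answer) and `g` (the answer is certified) on instances (automaton `M`, words
`u` and `v`) which are computed in polynomial time (in Mathlib's model of Turing machines with stacks, from the code
of the instance as a bit string), such that for every instance: if `g` is `true`, then `f` is `true` exactly when the
language of `M` is different from the shuffle of `u` and `v`; and `g` is `true` for every instance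
with code of length `N` such that some `P` with
`0 < P ≤ c * log N` is a period of `a` and of `b` for all factors `a` of `u` and `b` of `v` which are
permutations of each other. -/
theorem result (c : ℕ) :
    ∃ f g : Inst → Bool,
      Nonempty (Turing.TM2ComputableInPolyTime Inst.encode Computability.encodeBool f) ∧
      Nonempty (Turing.TM2ComputableInPolyTime Inst.encode Computability.encodeBool g) ∧
      (∀ x : Inst, g x = true → (f x = true ↔ x.M.accepts ≠ {w | Sh x.u x.v w})) ∧
      ∀ (x : Inst) (P : ℕ), 0 < P → P ≤ c * Nat.log 2 x.encode.length →
        (∀ a b : List (Fin x.s), a <:+: x.u → b <:+: x.v → a.Perm b → Per P a ∧ Per P b) →
        g x = true :=
  Pool.Agent.SR.finalLP c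

end Pool.Agent.Results.MP_53e59f_lc.LocalPeriod
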