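import Pool.Agent.H.MP_53e59f_lc.SR.SL

/-!
# DFA-SHUFFLE-NEQ for words in which all letters outside a scattered set have few blocks

Let `D` be a set of letters such that two different letters of `D` are never neighbours in `u` or in `v`. There is a
polynomial-time algorithm for the question whether the language of a deterministic automaton is
different from the shuffle of `u` and `v`, which tells for every instance if its answer is certified; certified answers
are right, and the answer is certified if for some such `D` every letter outside `D` has at most `c * log N` blocks
(`N` = the length of the input) in every factor of `u` which is a permutation of a factor of `v`.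
-/

namespace Pool.Agent.Results.MP_53e59f_lc.ScatteredLetters

open Pool.Agent.SF Pool.Agent.SJ Pool.Agent.SK

/-- The code of an instance determines the instance. -/
theorem encode_injective : Function.Injective Inst.encode := Pool.Agent.SF.encode_injective

/-- **DFA-SHUFFLE-NEQ is in P if all letters outside a scattered set have few blocks.**

For every `c` there are functions `f` (the answer) and `g` (the answer is certified) on instances (automaton `M`, words
`u` and `v`) which are computed in polynomial time (in Mathlib's model of Turing machines with stacks, from the code
of the instance as a bit string), such that for every instance: if `g` is `true`, then `f` is `true` exactly when the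
language of `M` is different from the shuffle of `u` and `v`; and `g` is `true` for every instance
with code of length `N` and every set `D` of letters which is
scattered in `u` and in `v` (two different letters of `D` are never neighbours), if every letter `e`
outside `D` has at most `c * log N` maximal blocks in every factor `a` of `u` which is a permutation of a
factor `b` of `v`. -/
theorem result (c : ℕ) :
    ∃ f g : Inst → Bool,
      Nonempty (Turing.TM2ComputableInPolyTime Inst.encode Computability.encodeBool f) ∧
      Nonempty (Turing.TM2ComputableInPolyTime Inst.encode Computability.encodeBool g) ∧
      (∀ x : Inst, g x = true → (f x = true ↔ x.M.accepts ≠ {w | Sh x.u x.v w})) ∧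
      ∀ (x : Inst) (D : Set (Fin x.s)), Scat D x.u → Scat D x.v →
        (∀ a b : List (Fin x.s), a <:+: x.u → b <:+: x.v → a.Perm b →
          ∀ e, e ∉ D → blk e a ≤ c * Nat.log 2 x.encode.length) →
        g x = true := by
  obtain ⟨f, g, h1, h2, h3, h4⟩ := Pool.Agent.SR.finalSL c
  exact ⟨f, g, h1, h2, h3, fun x D hu hv h => h4 x ⟨D, hu, hv, h⟩⟩

end Pool.Agent.Results.MP_53e59f_lc.ScatteredLetters
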